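import Pool.Agent.Helper32.KD2.Basic
import Pool.Agent.Helper32.KD2.St.C2
import Pool.Agent.Helper32.KD2.St.C3
import Pool.Agent.Helper32.KD2.St.C5
import Pool.Agent.Helper32.KD2.St.C6
import Pool.Agent.Helper32.KD2.St.D1
import Pool.Agent.Helper32.KD2.St.D2
/-! KD2-D3: the one step inequality (II.3). -/
namespace KD.II.D3
open Finset MeasureTheory KD KD.II

theorem one_le_tim {s : ℝ} (hs : 0 < s) (j : ℕ) : 1 ≤ tim s j := by
  unfold tim
  exact Real.one_le_rpow (by norm_num) (by positivity)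

theorem hh_le (K : ℕ) : hh K ≤ 1 / 256 := by
  unfold hh
  rw [pow_add]
  have h1 : (1 / 2 : ℝ) ^ K ≤ 1 := pow_le_one₀ (by norm_num) (by norm_num)
  have h2 : (1 / 2 : ℝ) ^ 8 = 1 / 256 := by norm_num
  rw [h2]
  nlinarith

theorem hh_tendsto {p : ℝ} (hp : 0 < p) :
    Filter.Tendsto (fun K => hh K ^ p) Filter.atTop (nhds 0) := by
  have h1 : Filter.Tendsto (fun K : ℕ => hh K) Filter.atTop (nhds 0) := by
    unfold hh
    have h2 : Filter.Tendsto (fun n : ℕ => (1 / 2 : ℝ) ^ n) Filter.atTop (nhds 0) :=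
      tendsto_pow_atTop_nhds_zero_of_lt_one (by norm_num) (by norm_num)
    exact h2.comp (Filter.tendsto_add_atTop_nat 8)
  have h3 := h1.rpow_const (p := p) (Or.inr hp.le)
  rwa [Real.zero_rpow hp.ne'] at h3

theorem rjmp_norm {d J j : ℕ} {h : ℝ} (hh0 : 0 ≤ h) {l : Fin d → ℤ} (hl : l ∈ ThF d J)
    (hj : j ≤ J) : ‖rjmp h J j l‖ ≤ h * 2 ^ (J + 1) := by
  rw [pi_norm_le_iff_of_nonneg (by positivity)]
  intro i
  unfold rjmp
  rw [Real.norm_eq_abs, abs_mul, abs_of_nonneg hh0]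
  refine mul_le_mul_of_nonneg_left ?_ hh0
  have h1 := (ijmp_ann hl hj).2 i
  have h2 : (|((ijmp J j l i : ℤ) : ℝ)|) < 2 ^ (j + 1) := by
    have := (Int.cast_lt (R := ℝ)).2 h1
    push_cast at this
    exact this
  refine h2.le.trans ?_
  exact pow_le_pow_right₀ (by norm_num) (by omega)

theorem one_step (d : ℕ) (hd : 1 ≤ d) (s lam Lam : ℝ) (hs : 0 < s) (hs1 : s < 1) (hlam : 0 < lam)
    (hLam : lam ≤ Lam) (η Cf : ℝ) (a : ℝ → Vd d → Vd d → Vd d → ℝ)
    (f G : ℝ → Vd d → Vd d → ℝ) (hL : Loc s η a f G Cf) (hnn : ∀ t x v, 0 ≤ f t x v)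
    (ha : ∀ t x v, Adm lam Lam (a t x v)) :
    ∀ e : ℝ, 0 < e → ∃ K0 : ℕ, ∀ K : ℕ, K0 ≤ K → ∃ ε0 : ℝ, 0 < ε0 ∧ ∀ ε : ℝ, 0 < ε → ε ≤ ε0 →
      ∀ (t : ℝ) (x v : Vd d), -(1 / 2) ≤ t → t ≤ 0 → ‖x‖ ≤ 1 / 4 → ‖v‖ ≤ 1 / 4 →
      oneL s ε (kk s ε K) (hh K) (K + 3) (a t x v) f t x v ≤
        (1 + kk s ε K * k0 d s Lam) * f t x v + kk s ε K * (η + e) := by
  intro e he
  obtain ⟨C1, hC1, hD1⟩ := sym_err d hd s lam Lam hs hs1 hlam hLam
  obtain ⟨C2, hC2, hD2⟩ := Lop_lower d hd s lam Lam hs hs1 hlam hLam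
  have hCf := hL.Cf0
  have hLam0 : 0 < Lam := lt_of_lt_of_le hlam hLam
  have hT : Filter.Tendsto (fun K : ℕ => C1 * Cf * hh K ^ (1 - s) + C2 * Cf * hh K ^ (2 - 2 * s))
      Filter.atTop (nhds 0) := by
    have h1 := (hh_tendsto (p := 1 - s) (by linarith)).const_mul (C1 * Cf)
    have h2 := (hh_tendsto (p := 2 - 2 * s) (by linarith)).const_mul (C2 * Cf)
    have h3 := h1.add h2
    simpa using h3
  obtain ⟨K0, hK0⟩ := Filter.eventually_atTop.1 (hT.eventually (gt_mem_nhds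
    (show (0 : ℝ) < e / 4 by linarith)))
  refine ⟨K0, fun K hK => ?_⟩
  have hKe := hK0 K hK
  obtain ⟨b0, hb0, htr⟩ := hL.tr (e / 4) (by linarith)
  set J : ℕ := K + 3 with hJ
  set h : ℝ := hh K with hh'
  have hpos : 0 < h := hh_pos K
  have hjump : h * 2 ^ (J + 1) = 1 / 16 := hh_jump K
  have hle : h ≤ 1 / 256 := hh_le K
  set B : ℝ := (J + 1 : ℝ) * 4 ^ d * Lam with hB
  have hB0 : 0 < B := by positivity
  set ε0 : ℝ := min (min b0 (1 / 2)) (e / (16 * B * (Cf + 1))) with hε0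
  have hden : 0 < 16 * B * (Cf + 1) := by positivity
  refine ⟨ε0, lt_min (lt_min hb0 (by norm_num)) (by positivity), ?_⟩
  intro ε hε hεε t x v ht ht0 hx hv
  set κ : ℝ := kk s ε K with hκ
  have hκpos : 0 < κ := kk_pos hε K
  have hκε : κ ≤ ε := by
    rw [hκ]
    unfold kk
    have h1 : hh K ^ (2 * s) ≤ 1 :=
      Real.rpow_le_one hpos.le (by linarith) (by linarith)
    nlinarith only [hpos, hle, hε, h1]
  have hκb : κ ≤ b0 := hκε.trans (hεε.trans ((min_le_left _ _).trans (min_le_left _ _)))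
  have hκh : κ ≤ 1 / 2 := hκε.trans (hεε.trans ((min_le_left _ _).trans (min_le_right _ _)))
  have hεB : 4 * Cf * (ε * B) ≤ e / 4 := by
    have h1 : ε ≤ e / (16 * B * (Cf + 1)) := hεε.trans (min_le_right _ _)
    rw [le_div_iff₀ hden] at h1
    nlinarith only [h1, hε, hB0, mul_nonneg hε.le hB0.le]
  have hQ : (t, x, v) ∈ Q1 d := by
    refine ⟨?_, ht0, ?_, ?_⟩
    · simp only
      linarith
    · simp only
      linarith
    · simp only
      linarith
  -- points of the form (t - κ, x - κ w, w), ‖w‖ ≤ 1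
  have hQw : ∀ w : Vd d, ‖w‖ ≤ 1 → (t - κ, x - κ • w, w) ∈ Q1 d := by
    intro w hw
    refine ⟨?_, ?_, ?_, hw⟩
    · simp only
      linarith
    · simp only
      linarith
    · simp only
      have h1 := norm_sub_le x (κ • w)
      rw [norm_smul, Real.norm_of_nonneg hκpos.le] at h1
      have h2 : κ * ‖w‖ ≤ 1 / 2 * 1 := mul_le_mul hκh hw (norm_nonneg _) (by norm_num)
      linarith
  have hQt : ∀ w : Vd d, ‖w‖ ≤ 1 → (t, x, w) ∈ Q1 d := by
    intro w hw
    refine ⟨?_, ht0, ?_, hw⟩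
    · simp only
      linarith
    · simp only
      linarith
  have hlipw : ∀ w : Vd d, ‖w‖ ≤ 1 →
      |f (t - κ) (x - κ • w) w - f t x w| ≤ 2 * Cf * κ := by
    intro w hw
    have h1 := hL.lip _ _ _ _ w (hQw w hw) (hQt w hw)
    have h2 : |t - κ - t| = κ := by
      rw [show t - κ - t = -κ by ring, abs_neg, abs_of_pos hκpos]
    have h3 : ‖x - κ • w - x‖ ≤ κ := by
      rw [show x - κ • w - x = -(κ • w) by abel, norm_neg, norm_smul,
        Real.norm_of_nonneg hκpos.le]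
      nlinarith only [hpos, hle, hκpos, hw, norm_nonneg w]
    rw [h2] at h1
    refine h1.trans ?_
    nlinarith only [hs, hs1, hCf, h3]
  have hv1 : ‖v‖ ≤ 1 := by linarith
  -- transport
  have hstep1 : f (t - κ) (x - κ • v) v ≤ f t x v - κ * (G t x v - e / 4) :=
    htr κ t x v hκpos hκb hQ (hQw v hv1)
  -- weights
  have hA := ha t x v
  set b : Vd d → ℝ := a t x v with hb
  set W : ℕ → (Fin d → ℤ) → ℝ := fun j l => mass d s J l / tim s j * acf s b h J j l with hW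
  have hWnn : ∀ j, ∀ l ∈ ThF d J, 0 ≤ W j l := by
    intro j l hl
    have h1 := mass_pos hd hs hl
    have h2 := acf_lo (j := j) hd hs hA h hl
    have h3 := one_le_tim hs j
    have h4 : 0 ≤ acf s b h J j l := le_trans hlam.le h2
    exact mul_nonneg (div_nonneg h1.le (by linarith)) h4
  have hWle : ∀ j, ∀ l ∈ ThF d J, W j l ≤ mass d s J l * Lam := by
    intro j l hl
    have h1 := mass_pos hd hs hl
    have h2 := acf_hi (j := j) hd hs hA h hl
    have h2' := acf_lo (j := j) hd hs hA h hl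
    have h3 := one_le_tim hs j
    have h4 : 0 ≤ acf s b h J j l := le_trans hlam.le h2'
    exact mul_le_mul (div_le_self h1.le h3) h2 h4 h1.le
  have hWsum : ∑ j ∈ range (J + 1), ∑ l ∈ ThF d J, W j l ≤ B := by
    have h1 : ∀ j ∈ range (J + 1), ∑ l ∈ ThF d J, W j l ≤ 4 ^ d * Lam := by
      intro j _
      calc ∑ l ∈ ThF d J, W j l ≤ ∑ l ∈ ThF d J, mass d s J l * Lam :=
            sum_le_sum fun l hl => hWle j l hl
        _ = (∑ l ∈ ThF d J, mass d s J l) * Lam := by rw [sum_mul]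
        _ ≤ 4 ^ d * Lam := mul_le_mul_of_nonneg_right (mass_sum hd hs) hLam0.le
    calc ∑ j ∈ range (J + 1), ∑ l ∈ ThF d J, W j l ≤ ∑ j ∈ range (J + 1), 4 ^ d * Lam :=
          sum_le_sum h1
      _ = B := by
        rw [sum_const, card_range, nsmul_eq_mul, hB]
        push_cast
        ring
  have hWsum0 : 0 ≤ ∑ j ∈ range (J + 1), ∑ l ∈ ThF d J, W j l :=
    sum_nonneg fun j _ => sum_nonneg fun l hl => hWnn j l hl
  set Φ : Vd d → ℝ := fun u => f t x (v + u) - f t x v with hΦ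
  -- the jump sum
  have hsum : ∑ j ∈ range (J + 1), ∑ θ : Th d J,
      mass d s J θ.1 / tim s j * acf s b h J j θ.1 *
        (f (t - κ) (x - κ • (v + rjmp h J j θ.1)) (v + rjmp h J j θ.1) -
          f (t - κ) (x - κ • v) v) ≤
      (∑ j ∈ range (J + 1), ∑ l ∈ ThF d J,
        mass d s J l / tim s j * acf s b h J j l * Φ (rjmp h J j l)) + 4 * Cf * κ * B := by
    have h1 : ∀ j ∈ range (J + 1), ∑ θ : Th d J,
        mass d s J θ.1 / tim s j * acf s b h J j θ.1 *
        (f (t - κ) (x - κ • (v + rjmp h J j θ.1)) (v + rjmp h J j θ.1) -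
          f (t - κ) (x - κ • v) v) ≤
        ∑ l ∈ ThF d J, (W j l * Φ (rjmp h J j l) + W j l * (4 * Cf * κ)) := by
      intro j hj
      have hj' : j ≤ J := Nat.lt_succ_iff.1 (mem_range.1 hj)
      rw [← Finset.sum_coe_sort (ThF d J)]
      refine sum_le_sum fun θ _ => ?_
      have hw1 : ‖v + rjmp h J j θ.1‖ ≤ 1 := by
        have h2 := norm_add_le v (rjmp h J j θ.1)
        have h3 := rjmp_norm hpos.le θ.2 hj'
        rw [hjump] at h3
        linarith
      have h4 := abs_le.1 (hlipw _ hw1)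
      have h5 := abs_le.1 (hlipw v hv1)
      have h6 := hWnn j θ.1 θ.2
      rw [← mul_add]
      refine mul_le_mul_of_nonneg_left ?_ h6
      simp only [hΦ]
      linarith [h4.2, h5.1]
    refine (sum_le_sum h1).trans ?_
    have h7 : ∑ j ∈ range (J + 1), ∑ l ∈ ThF d J,
        (W j l * Φ (rjmp h J j l) + W j l * (4 * Cf * κ)) =
        (∑ j ∈ range (J + 1), ∑ l ∈ ThF d J, W j l * Φ (rjmp h J j l)) +
        (∑ j ∈ range (J + 1), ∑ l ∈ ThF d J, W j l) * (4 * Cf * κ) := by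
      rw [sum_mul, ← sum_add_distrib]
      refine sum_congr rfl fun j _ => ?_
      rw [sum_mul, ← sum_add_distrib]
    rw [h7]
    have h8 : (∑ j ∈ range (J + 1), ∑ l ∈ ThF d J, W j l) * (4 * Cf * κ) ≤ 4 * Cf * κ * B := by
      rw [mul_comm]
      exact mul_le_mul_of_nonneg_left hWsum (by positivity)
    linarith
  have hjmp := (jump_identity (J := J) hd hs hA hpos Φ).2
  rw [hjmp, hjump] at hsum
  -- the integral
  have hsym := hD1 η Cf a f G hL b hA t x v h (1 / 16) (by linarith) ht0 (by linarith) hpos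
    (by linarith)
  have hlop := hD2 η Cf a f G hL hnn t x v hA h (1 / 16) (by linarith) ht0 (by linarith) hpos
    (by linarith) (by linarith)
  have hsym2 := (abs_le.1 hsym).2
  have heq := hL.eq t x v hQ
  set I1 : ℝ := ∫ w in ann d h (1 / 16), b w * (f t x (v + rtr h w) - f t x v) * kw d s w with hI1
  set I2 : ℝ := ∫ w in ann d h (1 / 16),
    (f t x (v + w) + f t x (v - w) - 2 * f t x v) * b w * kw d s w with hI2
  have hI1le : I1 ≤ G t x v + η + k0 d s Lam * f t x v + e / 4 := by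
    unfold k0
    linarith
  unfold oneL
  have hεκ : ε * h ^ (2 * s) = κ := rfl
  have hfin : ε * (h ^ (2 * s) * I1 + 4 * Cf * κ * B) =
      κ * I1 + κ * (4 * Cf * (ε * B)) := by
    rw [← hεκ]
    ring
  have h9 := mul_le_mul_of_nonneg_left hsum hε.le
  rw [hfin] at h9
  have h10 : κ * I1 ≤ κ * (G t x v + η + k0 d s Lam * f t x v + e / 4) :=
    mul_le_mul_of_nonneg_left hI1le hκpos.le
  have h11 : κ * (4 * Cf * (ε * B)) ≤ κ * (e / 4) := mul_le_mul_of_nonneg_left hεB hκpos.le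
  have h12 : (1 + κ * k0 d s Lam) * f t x v + κ * (η + e) =
      (f t x v - κ * (G t x v - e / 4)) +
      (κ * (G t x v + η + k0 d s Lam * f t x v + e / 4) + κ * (e / 4)) + κ * (e / 4) := by
    ring
  rw [h12]
  have h13 : 0 ≤ κ * (e / 4) := by positivity
  linarith only [hstep1, h9, h10, h11, h13]

end KD.II.D3
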